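import Pool.Agent.Y462.EI.Stm

/-!
Project EI (helper462), job QA: the quotient of an amalgamated product by the kernels on the
factors.
-/

set_option autoImplicit false

namespace Pool.Agent.Y756.EI

open Pool.Agent.Y462.PA Pool.Agent.Y462.EI

variable {K A B P P' : Type} [Group K] [Group A] [Group B] [Group P] [Group P']

/-- the map to the amalgamated product of the images -/
noncomputable def pim (α : K →* A) (β : K →* B) (f : A →* P) (g : B →* P') :
    Am α β →* Am (f.rangeRestrict.comp α) (g.rangeRestrict.comp β) :=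
  Am.lift α β ((Am.inl _ _).comp f.rangeRestrict) ((Am.inr _ _).comp g.rangeRestrict)
    (fun c => Am.glue (f.rangeRestrict.comp α) (g.rangeRestrict.comp β) c)

theorem pim_ker (α : K →* A) (β : K →* B) (f : A →* P) (g : B →* P') :
    Subgroup.normalClosure ((Am.inl α β) '' (f.ker : Set A) ∪ (Am.inr α β) '' (g.ker : Set B)) ≤
      (pim α β f g).ker := by
  apply Subgroup.normalClosure_le_normal
  rintro x (⟨a, ha, rfl⟩ | ⟨b, hb, rfl⟩)
  · rw [SetLike.mem_coe, MonoidHom.mem_ker, pim, Am.lift_inl, MonoidHom.comp_apply]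
    have h1 : f.rangeRestrict a = 1 := by
      rw [← MonoidHom.mem_ker, MonoidHom.ker_rangeRestrict]
      exact ha
    rw [h1, map_one]
  · rw [SetLike.mem_coe, MonoidHom.mem_ker, pim, Am.lift_inr, MonoidHom.comp_apply]
    have h1 : g.rangeRestrict b = 1 := by
      rw [← MonoidHom.mem_ker, MonoidHom.ker_rangeRestrict]
      exact hb
    rw [h1, map_one]

/-- factorization through the range -/
theorem exists_fac {A P H : Type} [Group A] [Group P] [Group H] (f : A →* P) (u : A →* H)
    (h : f.ker ≤ u.ker) : ∃ l : f.range →* H, ∀ a, l (f.rangeRestrict a) = u a := by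
  have hs : Function.Surjective f.rangeRestrict := f.rangeRestrict_surjective
  refine ⟨f.rangeRestrict.liftOfRightInverse (Function.surjInv hs)
    (Function.rightInverse_surjInv hs) ⟨u, ?_⟩, fun a => ?_⟩
  · rw [MonoidHom.ker_rangeRestrict]
    exact h
  · exact f.rangeRestrict.liftOfRightInverse_comp_apply _ _ _ a

theorem core (α : K →* A) (β : K →* B) (f : A →* P) (g : B →* P')
    (N : Subgroup (Am α β)) [N.Normal]
    (hN : N = Subgroup.normalClosure
      ((Am.inl α β) '' (f.ker : Set A) ∪ (Am.inr α β) '' (g.ker : Set B))) :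
    ∃ j : (Am α β ⧸ N) →* Am (f.rangeRestrict.comp α) (g.rangeRestrict.comp β),
      Function.Injective j ∧ ∀ x : Am α β, j (QuotientGroup.mk' N x) = pim α β f g x := by
  have hle : N ≤ (pim α β f g).ker := by
    rw [hN]
    exact pim_ker α β f g
  obtain ⟨lA, hlA⟩ := exists_fac f ((QuotientGroup.mk' N).comp (Am.inl α β)) (by
    intro a ha
    rw [MonoidHom.mem_ker, MonoidHom.comp_apply, ← MonoidHom.mem_ker, QuotientGroup.ker_mk', hN]
    exact Subgroup.subset_normalClosure (Or.inl ⟨a, ha, rfl⟩))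
  obtain ⟨lB, hlB⟩ := exists_fac g ((QuotientGroup.mk' N).comp (Am.inr α β)) (by
    intro b hb
    rw [MonoidHom.mem_ker, MonoidHom.comp_apply, ← MonoidHom.mem_ker, QuotientGroup.ker_mk', hN]
    exact Subgroup.subset_normalClosure (Or.inr ⟨b, hb, rfl⟩))
  obtain ⟨l, hl⟩ : ∃ l : Am (f.rangeRestrict.comp α) (g.rangeRestrict.comp β) →* (Am α β ⧸ N),
      l = Am.lift _ _ lA lB (fun c => by
        rw [MonoidHom.comp_apply, MonoidHom.comp_apply, hlA, hlB, MonoidHom.comp_apply,
          MonoidHom.comp_apply, Am.glue]) := ⟨_, rfl⟩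
  have hcomp : l.comp (pim α β f g) = QuotientGroup.mk' N := by
    apply Am.hom_ext
    · intro a
      rw [MonoidHom.comp_apply, pim, Am.lift_inl, MonoidHom.comp_apply, hl, Am.lift_inl, hlA]
      rfl
    · intro b
      rw [MonoidHom.comp_apply, pim, Am.lift_inr, MonoidHom.comp_apply, hl, Am.lift_inr, hlB]
      rfl
  obtain ⟨j, hj⟩ : ∃ j : (Am α β ⧸ N) →* Am (f.rangeRestrict.comp α) (g.rangeRestrict.comp β),
      ∀ x : Am α β, j (QuotientGroup.mk' N x) = pim α β f g x :=
    ⟨QuotientGroup.lift N (pim α β f g) hle, fun x => rfl⟩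
  refine ⟨j, ?_, hj⟩
  have hlj : ∀ y, l (j y) = y := by
    intro y
    obtain ⟨x, rfl⟩ := QuotientGroup.mk'_surjective N y
    rw [hj]
    exact DFunLike.congr_fun hcomp x
  exact Function.LeftInverse.injective hlj

theorem t_qa : S_QA := by
  intro K A B P _ _ _ _ α β f g _
  obtain ⟨j, hj, -⟩ := core α β f g _ rfl
  exact ⟨j, hj⟩

end Pool.Agent.Y756.EI
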